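import Mathlib

/-!
# No common frequently universal Taylor series on the compact sets of an annulus

Two compact sets suffice: a point `r` of modulus less than `R`, and a circular arc of radius `R`
with a small gap. If the partial sum of order `n` is bounded by one on the arc, then a Remez type
estimate shows that `|a_k| R^k` is at most `(n+1)^2 ρ^(-2n)` for `k ≤ n`, where `ρ` is close to one
if the gap is small. So the partial sums of orders between `d n / 2` and `n` nearly agree at `r`,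
which contradicts the positivity of the lower densities for the point.
-/

set_option autoImplicit false

namespace Pool.Agent.Results.MP_051359_an.AnnulusEmpty

open Filter Topology Set Metric

/-! ### The definitions used in the statement -/

/-- The lower density of a set of natural numbers. -/
noncomputable def lowerDensity (E : Set ℕ) : ℝ :=
  liminf (fun N : ℕ => ((E ∩ Set.Iic N).ncard : ℝ) / (N + 1)) atTop

/-- The partial sum of order `n` of the Taylor series of `f` at the origin. -/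
noncomputable def S (f : ℂ → ℂ) (n : ℕ) (z : ℂ) : ℂ :=
  ∑ k ∈ Finset.range (n + 1), iteratedDeriv k f 0 / (k.factorial : ℂ) * z ^ k

/-- `f` is a `K`-frequently universal Taylor series: for every `g` in `A(K)` and every `ε > 0` the
set of all `n` for which `S_n(f)` is `ε`-close to `g` on `K` has positive lower density. -/
def IsFU (f : ℂ → ℂ) (K : Set ℂ) : Prop :=
  ∀ g : ℂ → ℂ, ContinuousOn g K → DifferentiableOn ℂ g (interior K) → ∀ ε : ℝ, 0 < ε →
    0 < lowerDensity {n : ℕ | ∀ z ∈ K, ‖S f n z - g z‖ < ε}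

/-- The family `M(r, R)` of the compact sets with connected complement in the closed annulus. -/
def M (r R : ℝ) : Set (Set ℂ) :=
  {K | IsCompact K ∧ IsConnected Kᶜ ∧ ∀ z ∈ K, r ≤ ‖z‖ ∧ ‖z‖ ≤ R}

/-! ### Cauchy estimates for polynomials -/

theorem iterate_deriv_eval (k : ℕ) (p : Polynomial ℂ) :
    deriv^[k] (fun z => p.eval z) = fun z => (Polynomial.derivative^[k] p).eval z := by
  induction k generalizing p with
  | zero => rfl
  | succ k ih =>
    rw [Function.iterate_succ_apply, Function.iterate_succ_apply]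
    have : deriv (fun z => p.eval z) = fun z => (Polynomial.derivative p).eval z := by
      funext z
      exact Polynomial.deriv p
    rw [this, ih]

theorem coeff_le (p : Polynomial ℂ) (k : ℕ) {ρ C : ℝ} (hρ : 0 < ρ)
    (h : ∀ z ∈ sphere (0 : ℂ) ρ, ‖p.eval z‖ ≤ C) : ‖p.coeff k‖ ≤ C / ρ ^ k := by
  have h1 := Complex.norm_iteratedDeriv_le_of_forall_mem_sphere_norm_le (f := fun z => p.eval z)
    (c := 0) k hρ p.differentiable.diffContOnCl h
  rw [iteratedDeriv_eq_iterate, iterate_deriv_eval] at h1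
  have h2 : (Polynomial.derivative^[k] p).eval 0 = (k.factorial : ℂ) * p.coeff k := by
    rw [← Polynomial.coeff_zero_eq_eval_zero, Polynomial.coeff_iterate_derivative, zero_add,
      Nat.descFactorial_self, nsmul_eq_mul]
  beta_reduce at h1
  rw [h2, norm_mul, Complex.norm_natCast, mul_div_assoc] at h1
  exact le_of_mul_le_mul_left h1 (by exact_mod_cast k.factorial_pos)

/-! ### The Remez type estimate -/

theorem remez {ρ : ℝ} (h0 : 0 < ρ) (h1 : ρ < 1) : ∃ c : ℝ, 0 < c ∧ c < 1 ∧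
    ∀ (n : ℕ) (p : Polynomial ℂ), p.natDegree ≤ n →
      (∀ z : ℂ, ‖z‖ = 1 → z.re ≤ c → ‖p.eval z‖ ≤ 1) →
      ∀ k, ‖p.coeff k‖ ≤ (n + 1) ^ 2 / ρ ^ (2 * n) := by
  set δ : ℝ := (1 - ρ) / 6 with hδ
  have hδ0 : 0 < δ := by rw [hδ]; linarith
  have hδ1 : δ < 1 := by rw [hδ]; linarith
  refine ⟨1 - δ ^ 2 / 4, by nlinarith, by nlinarith, fun n p hp harc k => ?_⟩
  have hn : (1 : ℝ) ≤ n + 1 := by
    have : (0 : ℝ) ≤ n := Nat.cast_nonneg n
    linarith
  have hρn : 0 < ρ ^ (2 * n) := pow_pos h0 _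
  have hρn1 : ρ ^ (2 * n) ≤ 1 := pow_le_one₀ h0.le h1.le
  -- the maximum on the closed disc
  obtain ⟨z0, hz0, hmax⟩ := (isCompact_closedBall (0 : ℂ) 1).exists_isMaxOn
    ⟨0, by simp⟩ (f := fun z => ‖p.eval z‖) (by fun_prop)
  set A : ℝ := ‖p.eval z0‖ with hA
  have hmax' : ∀ z : ℂ, ‖z‖ ≤ 1 → ‖p.eval z‖ ≤ A := fun z hz => hmax (by simpa using hz)
  have hcoefA : ∀ j, ‖p.coeff j‖ ≤ A := fun j => by
    have := coeff_le p j one_pos (C := A) fun z hz => hmax' z (by simpa using (le_of_eq (by simpa using hz)))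
    simpa using this
  rcases le_or_gt A 1 with hA1 | hA1
  · refine (hcoefA k).trans (hA1.trans ?_)
    rw [one_le_div hρn]
    nlinarith
  -- the auxiliary function
  have hlog : 0 < Real.log A := Real.log_pos hA1
  set u : ℂ → ℂ := fun z => ((1 + δ : ℝ) + z) / ((1 + δ : ℝ) - z) with hu
  have hden : ∀ z : ℂ, ‖z‖ ≤ 1 → ((1 + δ : ℝ) : ℂ) - z ≠ 0 := by
    intro z hz h
    have h2 : ((1 + δ : ℝ) : ℂ) = z := sub_eq_zero.1 h
    rw [← h2, Complex.norm_real, Real.norm_of_nonneg (by linarith)] at hz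
    linarith
  have hre : ∀ z : ℂ, (u z).re = ((1 + δ) ^ 2 - ‖z‖ ^ 2) / ‖((1 + δ : ℝ) : ℂ) - z‖ ^ 2 := by
    intro z
    simp only [hu]
    rw [Complex.div_re, ← add_div, Complex.normSq_eq_norm_sq]
    congr 1
    rw [← Complex.normSq_eq_norm_sq z, Complex.normSq_apply]
    simp
    ring
  set F : ℂ → ℂ := fun z => p.eval z * Complex.exp (-((Real.log A * δ : ℝ) : ℂ) * u z) with hF
  have hnormF : ∀ z : ℂ, ‖F z‖ = ‖p.eval z‖ * Real.exp (-(Real.log A * δ * (u z).re)) := by
    intro z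
    simp only [hF]
    rw [norm_mul, Complex.norm_exp]
    congr 2
    rw [← Complex.ofReal_neg, Complex.re_ofReal_mul]
    ring
  have hFle : ∀ z : ℂ, ‖z‖ ≤ 1 → ‖F z‖ ≤ 1 := by
    have hd : DiffContOnCl ℂ F (ball 0 1) := by
      apply DifferentiableOn.diffContOnCl
      rw [closure_ball (0 : ℂ) one_ne_zero]
      intro z hz
      have hz' : ‖z‖ ≤ 1 := by simpa using hz
      apply DifferentiableAt.differentiableWithinAt
      simp only [hF, hu]
      refine DifferentiableAt.mul (Polynomial.differentiableAt p) ?_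
      refine DifferentiableAt.cexp ?_
      refine DifferentiableAt.const_mul ?_ _
      exact DifferentiableAt.div (by fun_prop) (by fun_prop) (hden z hz')
    intro z hz
    refine Complex.norm_le_of_forall_mem_frontier_norm_le isBounded_ball hd (C := 1) ?_ ?_
    · intro w hw
      rw [frontier_ball (0 : ℂ) one_ne_zero] at hw
      have hw1 : ‖w‖ = 1 := by simpa using hw
      rw [hnormF]
      have hre0 : 0 ≤ (u w).re := by
        rw [hre, hw1]
        have : 0 < (1 + δ) ^ 2 - 1 ^ 2 := by nlinarith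
        positivity
      by_cases hwc : w.re ≤ 1 - δ ^ 2 / 4
      · have h2 := harc w hw1 hwc
        have h3 : Real.exp (-(Real.log A * δ * (u w).re)) ≤ 1 := by
          rw [Real.exp_le_one_iff]
          have : 0 ≤ Real.log A * δ * (u w).re := by positivity
          linarith
        calc ‖p.eval w‖ * Real.exp (-(Real.log A * δ * (u w).re)) ≤ 1 * 1 :=
              mul_le_mul h2 h3 (Real.exp_pos _).le zero_le_one
          _ = 1 := one_mul 1
      · push Not at hwc
        have h2 := hmax' w hw1.le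
        have h4 : 1 / δ ≤ (u w).re := by
          rw [hre, hw1]
          have h5 : ‖((1 + δ : ℝ) : ℂ) - w‖ ^ 2 = (1 + δ) ^ 2 - 2 * (1 + δ) * w.re + 1 := by
            rw [← Complex.normSq_eq_norm_sq, Complex.normSq_apply]
            have h6 : w.re * w.re + w.im * w.im = 1 := by
              rw [← Complex.normSq_apply, Complex.normSq_eq_norm_sq, hw1]; norm_num
            simp only [Complex.sub_re, Complex.ofReal_re, Complex.sub_im, Complex.ofReal_im]
            nlinarith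
          have h7 : 0 < ‖((1 + δ : ℝ) : ℂ) - w‖ ^ 2 := by
            have := norm_pos_iff.2 (hden w hw1.le)
            positivity
          have h8 : ‖((1 + δ : ℝ) : ℂ) - w‖ ^ 2 ≤ 2 * δ ^ 2 := by
            rw [h5]
            nlinarith [mul_pos hδ0 hδ0, mul_pos (mul_pos hδ0 hδ0) (sub_pos.2 hδ1)]
          rw [div_le_div_iff₀ hδ0 h7]
          nlinarith
        have h9 : Real.exp (-(Real.log A * δ * (u w).re)) ≤ A⁻¹ := by
          rw [← Real.exp_log (show 0 < A by linarith), ← Real.exp_neg, Real.exp_log (by linarith),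
            Real.exp_le_exp]
          have h10 : Real.log A * δ * (1 / δ) ≤ Real.log A * δ * (u w).re :=
            mul_le_mul_of_nonneg_left h4 (by positivity)
          have h11 : Real.log A * δ * (1 / δ) = Real.log A := by field_simp
          linarith
        calc ‖p.eval w‖ * Real.exp (-(Real.log A * δ * (u w).re)) ≤ A * A⁻¹ :=
              mul_le_mul h2 h9 (Real.exp_pos _).le (by linarith)
          _ = 1 := mul_inv_cancel₀ (by linarith)
    · rw [closure_ball (0 : ℂ) one_ne_zero]; simpa using hz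
  -- the bound on the smaller disc
  have hsmall : ∀ z : ℂ, ‖z‖ = ρ → ‖p.eval z‖ ≤ √A := by
    intro z hz
    have h2 := hFle z (by linarith)
    rw [hnormF, Real.exp_neg, ← div_eq_mul_inv, div_le_one (Real.exp_pos _)] at h2
    refine h2.trans ?_
    have h3 : δ * (u z).re ≤ 1 / 2 := by
      rw [hre, hz]
      have h4 : (1 + δ) - ρ ≤ ‖((1 + δ : ℝ) : ℂ) - z‖ := by
        have h5 := norm_sub_norm_le ((1 + δ : ℝ) : ℂ) z
        rw [Complex.norm_real, Real.norm_of_nonneg (by linarith), hz] at h5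
        exact h5
      have h6 : 0 < (1 + δ) - ρ := by linarith
      have h7 : ((1 + δ) - ρ) ^ 2 ≤ ‖((1 + δ : ℝ) : ℂ) - z‖ ^ 2 := pow_le_pow_left₀ h6.le h4 2
      have h8 : ((1 + δ) ^ 2 - ρ ^ 2) / ‖((1 + δ : ℝ) : ℂ) - z‖ ^ 2 ≤
          ((1 + δ) ^ 2 - ρ ^ 2) / ((1 + δ) - ρ) ^ 2 := by
        apply div_le_div_of_nonneg_left _ (by positivity) h7
        nlinarith
      have h9 : ((1 + δ) ^ 2 - ρ ^ 2) / ((1 + δ) - ρ) ^ 2 ≤ 3 / (1 - ρ) := by
        rw [div_le_div_iff₀ (by positivity) (by linarith)]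
        have h10 : ((1 + δ) ^ 2 - ρ ^ 2) = ((1 + δ) - ρ) * ((1 + δ) + ρ) := by ring
        rw [h10, sq, ← mul_assoc, mul_comm 3, mul_assoc, mul_assoc]
        refine mul_le_mul_of_nonneg_left ?_ h6.le
        nlinarith
      have h11 : δ * (3 / (1 - ρ)) = 1 / 2 := by
        have : (1 - ρ) ≠ 0 := by linarith
        rw [hδ]; field_simp; norm_num
      calc δ * (((1 + δ) ^ 2 - ρ ^ 2) / ‖((1 + δ : ℝ) : ℂ) - z‖ ^ 2) ≤ δ * (3 / (1 - ρ)) :=
            mul_le_mul_of_nonneg_left (h8.trans h9) hδ0.le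
        _ = 1 / 2 := h11
    have h12 : √A = Real.exp (Real.log A * (1 / 2)) := by
      rw [Real.exp_mul, Real.exp_log (by linarith), ← Real.sqrt_eq_rpow]
    rw [h12, Real.exp_le_exp, mul_assoc]
    exact mul_le_mul_of_nonneg_left h3 hlog.le
  -- conclusion
  have hcoef : ∀ j, j ≤ n → ‖p.coeff j‖ ≤ √A / ρ ^ n := by
    intro j hj
    have h2 := coeff_le p j h0 (C := √A) fun z hz => hsmall z (by simpa using hz)
    refine h2.trans ?_
    apply div_le_div_of_nonneg_left (Real.sqrt_nonneg _) (pow_pos h0 _)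
    exact pow_le_pow_of_le_one h0.le h1.le hj
  have hAle : A ≤ (n + 1) * (√A / ρ ^ n) := by
    have hA2 : A = ‖∑ i ∈ Finset.range n.succ, p.coeff i * z0 ^ i‖ := by
      rw [hA, Polynomial.eval_eq_sum_range' (Nat.lt_succ_of_le hp) z0]
    refine (le_of_eq hA2).trans ((norm_sum_le _ _).trans ?_)
    have h2 : ∀ j ∈ Finset.range (n.succ), ‖p.coeff j * z0 ^ j‖ ≤ √A / ρ ^ n := by
      intro j hj
      rw [norm_mul, norm_pow]
      have hz0' : ‖z0‖ ≤ 1 := by simpa using hz0
      have h3 : ‖z0‖ ^ j ≤ 1 := pow_le_one₀ (norm_nonneg _) hz0'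
      exact (mul_le_of_le_one_right (norm_nonneg _) h3).trans
        (hcoef j (Nat.lt_succ_iff.1 (Finset.mem_range.1 hj)))
    refine (Finset.sum_le_sum h2).trans ?_
    rw [Finset.sum_const, Finset.card_range, nsmul_eq_mul]
    push_cast
    exact le_rfl
  refine (hcoefA k).trans ?_
  have hsq : √A * √A = A := Real.mul_self_sqrt (by linarith)
  have hsqpos : 0 < √A := Real.sqrt_pos.2 (by linarith)
  have h2 : √A ≤ (n + 1) / ρ ^ n := by
    have h3 : √A * √A ≤ √A * ((n + 1) / ρ ^ n) := by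
      rw [hsq]
      refine hAle.trans (le_of_eq ?_)
      ring
    exact le_of_mul_le_mul_left h3 hsqpos
  calc A = √A * √A := hsq.symm
    _ ≤ ((n + 1) / ρ ^ n) * ((n + 1) / ρ ^ n) := mul_le_mul h2 h2 hsqpos.le (by positivity)
    _ = (n + 1) ^ 2 / ρ ^ (2 * n) := by rw [div_mul_div_comm, ← pow_add, ← two_mul, sq]

/-! ### Lower densities -/

theorem count_of_pos {E : Set ℕ} (h : 0 < lowerDensity E) :
    ∃ d : ℝ, 0 < d ∧ ∀ᶠ N : ℕ in atTop, d * (N + 1) ≤ ((E ∩ Set.Iic N).ncard : ℝ) := by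
  refine ⟨lowerDensity E / 2, by linarith, ?_⟩
  have hb : IsBoundedUnder (· ≥ ·) atTop
      (fun N : ℕ => ((E ∩ Set.Iic N).ncard : ℝ) / (N + 1)) := by
    refine Filter.isBoundedUnder_of ⟨0, fun N => ?_⟩
    have h2 : (0 : ℝ) ≤ (N : ℝ) + 1 := by positivity
    exact div_nonneg (Nat.cast_nonneg _) h2
  have h1 := eventually_lt_of_lt_liminf (show lowerDensity E / 2 <
    liminf (fun N : ℕ => ((E ∩ Set.Iic N).ncard : ℝ) / (N + 1)) atTop by
      change lowerDensity E / 2 < lowerDensity E; linarith) hb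
  filter_upwards [h1] with N hN
  rw [lt_div_iff₀ (by positivity)] at hN
  exact hN.le

theorem exists_mem {E : Set ℕ} {d : ℝ} (hd : 0 < d)
    (h : ∀ᶠ N : ℕ in atTop, d * (N + 1) ≤ ((E ∩ Set.Iic N).ncard : ℝ)) :
    ∀ᶠ N : ℕ in atTop, ∃ m ∈ E, m ≤ N ∧ d / 2 * N ≤ m := by
  have h2 : ∀ᶠ N : ℕ in atTop, 2 / d < (N : ℝ) :=
    tendsto_natCast_atTop_atTop.eventually_gt_atTop _
  filter_upwards [h, h2] with N h3 h4
  by_contra hcon
  push Not at hcon
  have h5 : E ∩ Set.Iic N ⊆ (Finset.range ⌈d / 2 * N⌉₊ : Set ℕ) := by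
    intro m hm
    rw [Finset.coe_range]
    exact Nat.lt_ceil.2 (hcon m hm.1 hm.2)
  have h6 : (E ∩ Set.Iic N).ncard ≤ ⌈d / 2 * (N : ℝ)⌉₊ := by
    have := Set.ncard_le_ncard h5 (Finset.finite_toSet _)
    rwa [Set.ncard_coe_finset, Finset.card_range] at this
  have h7 : ((E ∩ Set.Iic N).ncard : ℝ) < d / 2 * N + 1 :=
    lt_of_le_of_lt (by exact_mod_cast h6) (Nat.ceil_lt_add_one (by positivity))
  rw [div_lt_iff₀ hd] at h4
  nlinarith

theorem infinite_of_pos {E : Set ℕ} (h : 0 < lowerDensity E) :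
    ∃ᶠ N : ℕ in atTop, N ∈ E := by
  obtain ⟨d, hd, h1⟩ := count_of_pos h
  have h2 := exists_mem hd h1
  rw [frequently_atTop]
  intro a
  have h3 : ∀ᶠ N : ℕ in atTop, (a : ℝ) < d / 2 * N :=
    (tendsto_natCast_atTop_atTop.const_mul_atTop (by positivity)).eventually_gt_atTop _
  obtain ⟨N, ⟨m, hm, _, h4⟩, h5⟩ := (h2.and h3).exists
  refine ⟨m, ?_, hm⟩
  have : (a : ℝ) < m := h5.trans_le h4
  exact_mod_cast this.le

/-! ### The arc -/

/-- The arc of radius `R` with a gap around the positive real axis. -/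
def arc (R c : ℝ) : Set ℂ := {z | ‖z‖ = R ∧ z.re ≤ R * c}

theorem isCompact_arc (R c : ℝ) : IsCompact (arc R c) := by
  have h : arc R c = sphere (0 : ℂ) R ∩ {z | z.re ≤ R * c} := by
    ext z; simp [arc]
  rw [h]
  exact (isCompact_sphere 0 R).inter_right (isClosed_le Complex.continuous_re continuous_const)

theorem isConnected_compl_arc {R c : ℝ} (hR : 0 < R) (hc0 : 0 < c) (hc1 : c < 1) :
    IsConnected (arc R c)ᶜ := by
  have hRc : R * c < R := by nlinarith
  set H : Set ℂ := {z | R * c < z.re} with hH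
  have hHpre : IsPreconnected H := (convex_halfSpace_re_gt (R * c)).isPreconnected
  have hHsub : H ⊆ (arc R c)ᶜ := fun z hz h => absurd h.2 (not_le.2 hz)
  have hx : ((2 * R : ℝ) : ℂ) ∈ H := by
    simp only [hH, Set.mem_ofPred_eq, Complex.ofReal_re]
    linarith
  refine ⟨⟨_, hHsub hx⟩, ?_⟩
  refine isPreconnected_of_forall ((2 * R : ℝ) : ℂ) fun y hy => ?_
  rcases lt_trichotomy ‖y‖ R with h | h | h
  · refine ⟨ball 0 R ∪ H, Set.union_subset ?_ hHsub, Or.inr hx, Or.inl (by simpa using h), ?_⟩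
    · intro z hz hz'
      rw [mem_ball_zero_iff] at hz
      exact hz.ne hz'.1
    · refine IsPreconnected.union (((R * c + R) / 2 : ℝ) : ℂ) ?_ ?_
        (convex_ball (0 : ℂ) R).isPreconnected hHpre
      · rw [mem_ball_zero_iff, Complex.norm_real, Real.norm_of_nonneg (by positivity)]
        linarith
      · simp only [hH, Set.mem_ofPred_eq, Complex.ofReal_re]
        linarith
  · refine ⟨H, hHsub, hx, ?_, hHpre⟩
    by_contra hcon
    exact hy ⟨h, not_lt.1 hcon⟩
  · refine ⟨sphere 0 ‖y‖ ∪ H, Set.union_subset ?_ hHsub, Or.inr hx, Or.inl (by simp), ?_⟩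
    · intro z hz hz'
      rw [mem_sphere_zero_iff_norm] at hz
      rw [← hz, hz'.1] at h
      exact lt_irrefl _ h
    · refine IsPreconnected.union ((‖y‖ : ℝ) : ℂ) ?_ ?_
        (isPreconnected_sphere (by simp) (0 : ℂ) ‖y‖) hHpre
      · simp
      · simp only [hH, Set.mem_ofPred_eq, Complex.ofReal_re]
        linarith

/-- **Main theorem.** The intersection is empty for all `1 ≤ r < R`. -/
theorem result : ∀ r R : ℝ, 1 ≤ r → r < R →
    {f : ℂ → ℂ | DifferentiableOn ℂ f (ball 0 1) ∧ ∀ K ∈ M r R, IsFU f K} = ∅ := by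
  intro r R hr hrR
  rw [Set.eq_empty_iff_forall_notMem]
  rintro f ⟨-, hf⟩
  have hr0 : 0 < r := by linarith
  have hR0 : 0 < R := by linarith
  set a : ℕ → ℂ := fun k => iteratedDeriv k f 0 / (k.factorial : ℂ) with ha
  have hS : ∀ n z, S f n z = ∑ k ∈ Finset.range (n + 1), a k * z ^ k := fun n z => rfl
  -- the point
  have hK0 : ({(r : ℂ)} : Set ℂ) ∈ M r R := by
    refine ⟨isCompact_singleton, isConnected_compl_singleton_of_one_lt_rank (by simp) _, ?_⟩
    intro z hz
    rw [Set.mem_singleton_iff] at hz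
    rw [hz, Complex.norm_real, Real.norm_of_nonneg hr0.le]
    exact ⟨le_rfl, hrR.le⟩
  have hdiff : ∀ w : ℂ, DifferentiableOn ℂ (fun _ : ℂ => w) (interior {(r : ℂ)}) :=
    fun w => differentiableOn_const w
  have hE0 := hf _ hK0 (fun _ => 0) continuousOn_const (hdiff 0) 1 one_pos
  have hE1 := hf _ hK0 (fun _ => 3) continuousOn_const (hdiff 3) 1 one_pos
  obtain ⟨d0, hd0, h0⟩ := count_of_pos hE0
  obtain ⟨d1, hd1, h1⟩ := count_of_pos hE1
  set d := min d0 d1 with hd
  have hdpos : 0 < d := lt_min hd0 hd1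
  have h0' := exists_mem hd0 h0
  have h1' := exists_mem hd1 h1
  -- the choice of `ρ`
  have hq0 : 0 < (r / R) ^ (d / 2) := Real.rpow_pos_of_pos (by positivity) _
  have hq1 : (r / R) ^ (d / 2) < 1 :=
    Real.rpow_lt_one (by positivity) ((div_lt_one hR0).2 hrR) (by positivity)
  obtain ⟨ρ, hρ0, hρ1, hρ2⟩ : ∃ ρ : ℝ, 0 < ρ ∧ ρ < 1 ∧ (r / R) ^ (d / 2) < ρ ^ 2 := by
    refine ⟨√(((r / R) ^ (d / 2) + 1) / 2), Real.sqrt_pos.2 (by positivity), ?_, ?_⟩
    · rw [Real.sqrt_lt' one_pos]; linarith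
    · rw [Real.sq_sqrt (by positivity)]; linarith
  obtain ⟨c, hc0, hc1, hrem⟩ := remez hρ0 hρ1
  have hL : arc R c ∈ M r R := ⟨isCompact_arc R c, isConnected_compl_arc hR0 hc0 hc1,
    fun z hz => ⟨hz.1.symm ▸ hrR.le, hz.1.le⟩⟩
  have hEL := infinite_of_pos (hf _ hL (fun _ => 0) continuousOn_const
    (differentiableOn_const 0) 1 one_pos)
  -- the coefficient estimate
  have hcoef : ∀ n : ℕ, (∀ z ∈ arc R c, ‖S f n z - 0‖ < 1) → ∀ k ≤ n,
      ‖a k‖ * R ^ k ≤ (n + 1) ^ 2 / ρ ^ (2 * n) := by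
    intro n hn k hk
    set p : Polynomial ℂ := ∑ j ∈ Finset.range (n + 1),
      Polynomial.monomial j (a j * (R : ℂ) ^ j) with hp
    have hpc : ∀ j ≤ n, p.coeff j = a j * (R : ℂ) ^ j := by
      intro j hj
      rw [hp, Polynomial.finsetSum_coeff]
      simp only [Polynomial.coeff_monomial]
      rw [Finset.sum_ite_eq' (Finset.range (n + 1)) j]
      rw [if_pos (Finset.mem_range.2 (by omega))]
    have hpdeg : p.natDegree ≤ n := by
      rw [hp]
      refine Polynomial.natDegree_sum_le_of_forall_le _ _ fun j hj => ?_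
      exact (Polynomial.natDegree_monomial_le _).trans (Nat.lt_succ_iff.1 (Finset.mem_range.1 hj))
    have hpe : ∀ z : ℂ, p.eval z = S f n ((R : ℂ) * z) := by
      intro z
      rw [hp, Polynomial.eval_finsetSum, hS]
      refine Finset.sum_congr rfl fun j _ => ?_
      rw [Polynomial.eval_monomial, mul_pow]
      ring
    have h2 := hrem n p hpdeg (fun z hz hzc => by
      rw [hpe]
      have h3 := hn ((R : ℂ) * z) ⟨by
        rw [norm_mul, Complex.norm_real, Real.norm_of_nonneg hR0.le, hz, mul_one], by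
        rw [Complex.re_ofReal_mul]
        exact mul_le_mul_of_nonneg_left hzc hR0.le⟩
      rw [sub_zero] at h3
      exact h3.le) k
    rw [hpc k hk, norm_mul, norm_pow, Complex.norm_real, Real.norm_of_nonneg hR0.le] at h2
    exact h2
  -- the two partial sums nearly agree
  have hclose : ∀ n : ℕ, (∀ z ∈ arc R c, ‖S f n z - 0‖ < 1) → ∀ m m' : ℕ, m ≤ m' → m' ≤ n →
      d / 2 * n ≤ m → ‖S f m r - S f m' r‖ ≤
        (n + 1) ^ 3 * ((r / R) ^ (d / 2) / ρ ^ 2) ^ n := by
    intro n hn m m' hmm hm'n hdm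
    have e1 : S f m' r - S f m r = ∑ k ∈ Finset.Ico (m + 1) (m' + 1), a k * (r : ℂ) ^ k := by
      rw [hS, hS, Finset.sum_Ico_eq_sub _ (by omega)]
    rw [norm_sub_rev, e1]
    refine (norm_sum_le _ _).trans ?_
    have e2 : ∀ k ∈ Finset.Ico (m + 1) (m' + 1), ‖a k * (r : ℂ) ^ k‖ ≤
        (n + 1) ^ 2 / ρ ^ (2 * n) * ((r / R) ^ (d / 2)) ^ n := by
      intro k hk
      rw [Finset.mem_Ico] at hk
      rw [norm_mul, norm_pow, Complex.norm_real, Real.norm_of_nonneg hr0.le]
      have e3 := hcoef n hn k (by omega)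
      have e4 : r ^ k = R ^ k * (r / R) ^ k := by
        rw [← mul_pow, mul_div_cancel₀ _ hR0.ne']
      rw [e4, ← mul_assoc]
      refine mul_le_mul e3 ?_ (by positivity) (by positivity)
      rw [← Real.rpow_natCast, ← Real.rpow_natCast, ← Real.rpow_mul (by positivity)]
      apply Real.rpow_le_rpow_of_exponent_ge (by positivity) ((div_lt_one hR0).2 hrR).le
      have : (m : ℝ) ≤ k := by exact_mod_cast (show m ≤ k by omega)
      linarith
    refine (Finset.sum_le_sum e2).trans ?_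
    rw [Finset.sum_const, Nat.card_Ico, nsmul_eq_mul, div_pow, ← pow_mul ρ]
    have e5 : ((m' + 1 - (m + 1) : ℕ) : ℝ) ≤ n + 1 := by
      exact_mod_cast (show m' + 1 - (m + 1) ≤ n + 1 by omega)
    calc ((m' + 1 - (m + 1) : ℕ) : ℝ) * ((n + 1) ^ 2 / ρ ^ (2 * n) * ((r / R) ^ (d / 2)) ^ n)
        ≤ (n + 1) * ((n + 1) ^ 2 / ρ ^ (2 * n) * ((r / R) ^ (d / 2)) ^ n) :=
          mul_le_mul_of_nonneg_right e5 (by positivity)
      _ = (n + 1) ^ 3 * (((r / R) ^ (d / 2)) ^ n / ρ ^ (2 * n)) := by ring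
  -- the limit
  set q : ℝ := (r / R) ^ (d / 2) / ρ ^ 2 with hq
  have hqpos : 0 ≤ q := by positivity
  have hqlt : q < 1 := (div_lt_one (by positivity)).2 hρ2
  have hlim : Tendsto (fun n : ℕ => ((n : ℝ) + 1) ^ 3 * q ^ n) atTop (𝓝 0) := by
    have h2 : Tendsto (fun n : ℕ => (n : ℝ) ^ 3 * q ^ n) atTop (𝓝 0) :=
      tendsto_pow_const_mul_const_pow_of_abs_lt_one 3 (by rwa [abs_of_nonneg hqpos])
    have h3 : Tendsto (fun n : ℕ => 8 * ((n : ℝ) ^ 3 * q ^ n)) atTop (𝓝 0) := by
      simpa using h2.const_mul 8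
    refine squeeze_zero' (Eventually.of_forall fun n => by positivity) ?_ h3
    filter_upwards [eventually_ge_atTop 1] with n hn
    have hn' : (1 : ℝ) ≤ n := by exact_mod_cast hn
    rw [← mul_assoc]
    refine mul_le_mul_of_nonneg_right ?_ (by positivity)
    calc ((n : ℝ) + 1) ^ 3 ≤ (2 * n) ^ 3 := pow_le_pow_left₀ (by positivity) (by linarith) 3
      _ = 8 * (n : ℝ) ^ 3 := by ring
  have hev : ∀ᶠ n : ℕ in atTop, ((n : ℝ) + 1) ^ 3 * q ^ n < 1 :=
    hlim.eventually (gt_mem_nhds one_pos)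
  obtain ⟨n, hnE, ⟨m, hm, hmn, hmd⟩, ⟨m', hm', hmn', hmd'⟩, hn1⟩ :=
    (hEL.and_eventually (h0'.and (h1'.and hev))).exists
  have hm0 : ‖S f m r - 0‖ < 1 := hm _ (Set.mem_singleton _)
  have hm3 : ‖S f m' r - 3‖ < 1 := hm' _ (Set.mem_singleton _)
  have hnn : (0 : ℝ) ≤ n := Nat.cast_nonneg n
  have hdm : d / 2 * n ≤ m := by
    have : d ≤ d0 := min_le_left _ _
    nlinarith
  have hdm' : d / 2 * n ≤ m' := by
    have : d ≤ d1 := min_le_right _ _
    nlinarith
  have hfin : ‖S f m r - S f m' r‖ < 1 := by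
    rcases le_total m m' with h | h
    · exact (hclose n hnE m m' h hmn' hdm).trans_lt hn1
    · rw [norm_sub_rev]
      exact (hclose n hnE m' m h hmn hdm').trans_lt hn1
  have hcontra : ‖(3 : ℂ)‖ < 3 := by
    calc ‖(3 : ℂ)‖ = ‖(S f m r - 0) - (S f m r - S f m' r) - (S f m' r - 3)‖ := by
          congr 1; ring
      _ ≤ ‖S f m r - 0‖ + ‖S f m r - S f m' r‖ + ‖S f m' r - 3‖ :=
          (norm_sub_le _ _).trans (add_le_add_left (norm_sub_le _ _) _)
      _ < 3 := by linarith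
  rw [Complex.norm_ofNat] at hcontra
  exact lt_irrefl _ hcontra

end Pool.Agent.Results.MP_051359_an.AnnulusEmpty
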